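import Pool.Agent.H891R2.VS.Dom

/-!
# Vassiliev invariants detect link diagrams with dominated states

Diagrams: `Pool.Agent.H891R2.Jones.Diagram` (`Crossing`, `Diagram`: oriented link diagrams with
marked points) and `Pool.Agent.H891R2.MT.Defs` (`Ribbon k`: a ribbon graph with `k` edges;
`Ribbon.Planar`: connected and planar; `Γ.link (sg R)`: the link diagram with Tait graph `Γ` and one
crossing at every edge, of the kind `-1` for the edges in `R` and `1` for the others; every connected
link diagram with at least one crossing is of this form; `Orients D U`: `D` is the unoriented diagram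
`U` with directions).

States: `Pool.Agent.H891R2.DS.Defs`, `Pool.Agent.H891R2.DS.Final` (a state is a set `S` of edges, the
bands of `Γ` which are kept in the smoothing; `Asm R S`: the crossings which have the `A`-smoothing in
the state `S`; `stateGraph Γ S`: its vertices are the circles of `S`, and every crossing is an edge
between the circles which it touches; `Dom G M`: every nonempty even subgraph of `G` has at least two
more edges outside `M` than in `M`; `Nugatory Γ e`: the edge `e` is a bridge of the Tait graph or of
its dual; `spanA Γ R S₁ S₂ = 2 k + 2 (v₁ + v₂) - 4 - 6 (m₁ + m₂)`, `vᵢ` the number of circles of `Sᵢ`,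
`m₁` the number of `A`-smoothings of `S₁`, `m₂` the number of `B`-smoothings of `S₂`).

Vassiliev invariants: `Pool.Agent.H832R3.VJ.Defs` (`Dia`: an oriented diagram with the finite set of
its marked points; `Move`: relabelling, subdivision of strands and the Reidemeister moves; `sing`:
extension to diagrams with double points by the Vassiliev skein relation; `IsVassiliev n v`: `v` is
an invariant of oriented links of order at most `n`; `Separated d X Y`: some integer valued
Vassiliev invariant of order at most `d` has different values on `X` and `Y`; `unknot`).
-/

set_option autoImplicit false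

namespace Pool.Agent.Results.MP_5f6b43_gt.DominatedStates

open Finset Pool.Agent.H891R2.Jones Pool.Agent.H891R2.MT Pool.Agent.H891R2.DS 
  Pool.Agent.H832R3.VJ Pool.Agent.H891R2.VS

/-- Let `D` be a connected link diagram with `k > 0` crossings, not all of them nugatory, which has a
state `S₁` such that every cycle of its state graph has at least two more `B`-smoothed than
`A`-smoothed crossings, and a state `S₂` such that every cycle of its state graph has at least two
more `A`-smoothed than `B`-smoothed crossings. Then some Vassiliev invariant of order at most
`spanA Γ R S₁ S₂ + 1` has different values on `D` and the unknot. -/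
theorem result {k : ℕ} (Γ : Ribbon k) (hΓ : Γ.Planar) (hk : 0 < k) (R S₁ S₂ : Finset (Fin k)) 
    (h₁ : Dom (stateGraph Γ S₁) (Asm R S₁)) (h₂ : Dom (stateGraph Γ S₂) (Asm R S₂)ᶜ) 
    (h : ∃ e, ¬ Nugatory Γ e) (D : Diagram (Ribbon.Pt (sg R))) (hD : Orients D (Γ.link (sg R))) 
    (hc : D.IsClosed) : 
    Separated ((spanA Γ R S₁ S₂).toNat + 1) ⟨_, inferInstance, D⟩ unknot :=
  detect ⟨k, hk, Γ, hΓ, R, S₁, S₂, h₁, h₂, D, hD, hc⟩ h

end Pool.Agent.Results.MP_5f6b43_gt.DominatedStates
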