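import Pool.Agent.H891R2.VS.Rat

/-!
# Rational fillings of a 2-tangle with the Kontsevich invariant of the unknot

`Pool.Agent.H891R2.RF.Defs`, `Pool.Agent.H891R2.MT.Defs`, `Pool.Agent.H891R2.Jones.Diagram`,
`Pool.Agent.H891R2.VS.Rat` and `Pool.Agent.H832R3.VJ.Defs` contain the definitions:

* `UDiagram`, `Diagram`: unoriented / oriented link diagrams given by marked points, arcs (pieces
  without crossings) and crossings; planarity is not required; `Diagram.IsClosed`;
* `Orients D U`: `D` is the unoriented diagram `U` with directions;
* `Outer4`: the part of a link diagram outside of a box which the diagram meets in four points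
  (a 2-tangle);
* `Tangle`: diagrams of rational tangles, given by a word of crossings, which are added at the right
  side or at the bottom of the rest, the innermost part being two horizontal strands (the tangle `0`)
  or two vertical strands (the tangle `∞`); `W.fill R`: the box of `W` is filled with `R`;
* `slope R ∈ ℚ ∪ {∞}`: Conway's fraction of `R`; `dist R R' = |p q' - p' q|` for the slopes `p/q`,
  `p'/q'` of `R`, `R'`;
* `JonesRational W`: there are a word `r` and one unit `± A^m` such that the bracket of `W.fill R` is
  this unit times the bracket of the two-bridge diagram `Outer4.triv.fill (r R)`, for all `R`;
* `Dia`: an oriented diagram with the finite set of its marked points; `Move`: relabelling,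
  subdivision of strands and the Reidemeister moves; `sing`: extension to diagrams with double points
  by the Vassiliev skein relation; `IsVassiliev n v`: `v` is an invariant of oriented links of order
  at most `n`; `Separated d X Y`: some integer valued Vassiliev invariant of order at most `d` has
  different values on `X` and `Y`; `unknot`;
* `VassilievTrivial U`: for some directions, all integer valued Vassiliev invariants have the same
  value on `U` and on the unknot.
-/

set_option autoImplicit false

namespace Pool.Agent.Results.MP_5f6b43_gt.RationalFillings

open Pool.Agent.H891R2.RF Pool.Agent.H891R2.VS

/-- Let `W` be a 2-tangle (the outside of a box in a link diagram). Then either at most two slopes in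
`ℚ ∪ {∞}` occur among the rational tangles `R` for which no Vassiliev invariant separates `W.fill R`
from the unknot, and two different such slopes have odd distance; or `W` is Jones-rational (up to
one unit all its rational fillings have the brackets of the fillings of a rational tangle), and then
all `R` for which no Vassiliev invariant separates `W.fill R` from the unknot have distance one from
one slope. -/
theorem result (W : Outer4) : 
    ((∀ R₁ R₂ : Tangle, VassilievTrivial (W.fill R₁) → VassilievTrivial (W.fill R₂) → 
      slope R₁ ≠ slope R₂ → Odd (dist R₁ R₂)) ∧
     ∃ s₁ s₂ : OnePoint ℚ, ∀ R : Tangle, VassilievTrivial (W.fill R) → 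
      slope R = s₁ ∨ slope R = s₂) ∨
    (JonesRational W ∧ ∃ R₀ : Tangle, ∀ R : Tangle, VassilievTrivial (W.fill R) → dist R R₀ = 1) :=
  rat W

end Pool.Agent.Results.MP_5f6b43_gt.RationalFillings
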