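import Pool.Agent.H891R2.VS.Site

/-!
# Vassiliev invariants of bounded order detect long twist regions in arbitrary diagrams

Diagrams: `Pool.Agent.H891R2.Jones.Diagram` (`Crossing`, `Diagram`, `UDiagram`: diagrams with marked
points, arcs and crossings), `Pool.Agent.H891R2.MT.Defs` (`Orients D U`: `D` is the unoriented diagram
`U` with directions) and `Pool.Agent.H891R2.SI.Defs`:

* `Sites k`: a diagram `O` with `k` open boxes (sites), each with four corners; `O.Connected`: the
  diagram is connected (each site being one piece);
* `O.fill w`, `w ∈ ℤ^k`: the site `e` is filled with two vertical strands twisted around each other, a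
  row of `|w e|` crossings of the kind given by the sign of `w e`;
* `O.cut`: every site is filled with a cup and a cap, that is, all sites are cut through;
* `det U`: the determinant of a diagram, the absolute value of its bracket at `A = e^{πi/4}`.

Vassiliev invariants: `Pool.Agent.H832R3.VJ.Defs` (`Dia`: an oriented diagram with the finite set of
its marked points; `Move`: relabelling, subdivision of strands and the Reidemeister moves; `sing`:
extension to diagrams with double points by the Vassiliev skein relation; `IsVassiliev n v`: `v` is
an invariant of oriented links of order at most `n`; `Separated d X Y`: some integer valued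
Vassiliev invariant of order at most `d` has different values on `X` and `Y`; `unknot`).
-/

set_option autoImplicit false

namespace Pool.Agent.Results.MP_5f6b43_gt.SiteTwist

open Pool.Agent.H891R2.Jones Pool.Agent.H891R2.MT Pool.Agent.H891R2.SI Pool.Agent.H832R3.VJ

/-- Let `O` be a connected diagram with `c` crossings and `k ≥ 1` sites such that the link `O.cut`
has nonzero determinant (for classical diagrams: for instance, such that it is a knot). If
`|w e| ≥ 2 c + 4 k` for all sites `e`, with arbitrary signs of the `w e`, then the link `O.fill w`, with
any directions, is separated from the unknot by a Vassiliev invariant of order at most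
`2 ^ k (6 c + 8 k + 1) + 4 k`, a number which does not depend on `w`. -/
theorem result (k : ℕ) (hk : 0 < k) (O : Sites k) (hO : O.Connected) (hdet : det O.cut ≠ 0) 
    (w : Fin k → ℤ) (hw : ∀ e, 2 * O.crossings.length + 4 * k ≤ |w e|)
    (D : Diagram (O.P ⊕ Ribbon.Pt w)) (hD : Orients D (O.fill w)) (_ : D.IsClosed) :
    Separated (2 ^ k * (6 * O.crossings.length + 8 * k + 1) + 4 * k) 
      ⟨_, inferInstance, D⟩ unknot :=
  Pool.Agent.H891R2.VS.site hk O hO hdet w hw D hD

end Pool.Agent.Results.MP_5f6b43_gt.SiteTwist
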