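import Pool.Agent.H832R3.VJ.Fin

/-!
# Vassiliev invariants of bounded order detect twisted knots up to codimension two

Diagrams: `Pool.Agent.H891R2.Jones.Diagram` (`Crossing`, `Diagram`: oriented link diagrams with
marked points; `Diagram.IsClosed`) and `Pool.Agent.H891R2.MT.Defs` (`Ribbon k`: a ribbon graph with
`k` edges, given by the rotation system on its `2 k` darts; `Ribbon.verts`, `Ribbon.faces`,
`Ribbon.comps`; `Ribbon.Planar`: connected and Euler's formula, a connected plane graph;
`Ribbon.link n`: the unoriented link diagram which is the boundary of the surface made of one disc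
for every vertex and, for every edge `e`, a band with `n e` half twists, that is, a row of `|n e|`
crossings; `Orients D U`: `D` is the unoriented diagram `U` with directions).

Vassiliev invariants: `Pool.Agent.H832R3.VJ.Defs` (`Dia`: an oriented diagram with the finite set of
its marked points; `Move`: relabelling, subdivision of strands and the Reidemeister moves; `sing`:
extension to diagrams with double points by the Vassiliev skein relation; `IsVassiliev n v`: `v` is
an invariant of oriented links of order at most `n`; `Separated d X Y`: some integer valued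
Vassiliev invariant of order at most `d` has different values on `X` and `Y`; `unknot`).
-/

set_option autoImplicit false

namespace Pool.Agent.Results.MP_5f6b43_gt.UniformOrder

open Finset Pool.Agent.H891R2.Jones Pool.Agent.H891R2.MT Pool.Agent.H832R3.VJ

/-- Let `Γ` be a connected plane graph with `k` edges and at least two independent cycles
(`verts + 1 ≤ k`), and let `D(n)`, `n ∈ ℤ^k`, be the link diagram with `|n e|` crossings on the edge
`e`.

* If for some directions `D(n)` is not separated from the unknot by the Vassiliev invariants of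
  order at most `(2 ^ k + 1) * (8 * k + 9)` (a bound independent of `n`), then `n` satisfies two
  linearly independent inequalities `|n(S₁) - n(S₂)| ≤ 14 k`, `|n(S₃) - n(S₄)| ≤ 14 k`, where
  `n(S) = ∑ e ∈ S, n e`.
* Hence this happens for at most `9^k (28 k + 1)² (2 N + 1)^(k-2)` of the `(2 N + 1)^k` diagrams
  `D(n)` with `|n e| ≤ N` for all `e`. -/
theorem result (k : ℕ) (Γ : Ribbon k) (hΓ : Γ.Planar) (hk : Γ.verts + 1 ≤ k) :
    (∀ (n : Fin k → ℤ) (D : Diagram (Ribbon.Pt n)), Orients D (Γ.link n) → D.IsClosed →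
      ¬ Separated ((2 ^ k + 1) * (8 * k + 9)) ⟨_, inferInstance, D⟩ unknot →
      ∃ S₁ S₂ S₃ S₄ : Finset (Fin k),
        (∀ a b : ℤ, (∀ e, a * ((if e ∈ S₁ then 1 else 0) - (if e ∈ S₂ then 1 else 0)) +
          b * ((if e ∈ S₃ then 1 else 0) - (if e ∈ S₄ then 1 else 0)) = 0) → a = 0 ∧ b = 0) ∧
        |∑ e ∈ S₁, n e - ∑ e ∈ S₂, n e| ≤ 14 * k ∧
        |∑ e ∈ S₃, n e - ∑ e ∈ S₄, n e| ≤ 14 * k) ∧
    (∀ N : ℕ, {n : Fin k → ℤ | (∀ e, |n e| ≤ N) ∧ ∃ D : Diagram (Ribbon.Pt n),
        Orients D (Γ.link n) ∧ D.IsClosed ∧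
        ¬ Separated ((2 ^ k + 1) * (8 * k + 9)) ⟨_, inferInstance, D⟩ unknot}.ncard ≤
      9 ^ k * (28 * k + 1) ^ 2 * (2 * N + 1) ^ (k - 2)) := by
  have hk0 : 0 < k := by omega
  refine ⟨fun n D hD hc h => ?_, fun N => ?_⟩
  · obtain ⟨S₁, S₂, S₃, S₄, h1, h2, h3⟩ := two_relations2 Γ hΓ hk n 0 (detect hk0 Γ hΓ n D hD hc h)
    refine ⟨S₁, S₂, S₃, S₄, h1, ?_, ?_⟩
    · have := h2
      simpa [nS] using this
    · have := h3
      simpa [nS] using this
  · refine le_trans (Set.ncard_le_ncard ?_ ?_) (le_trans (main2 Γ hΓ hk 0 N) (le_of_eq (by simp)))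
    · rintro n ⟨hn, D, hD, hc, h⟩
      exact ⟨hn, detect hk0 Γ hΓ n D hD hc h⟩
    · refine (Set.Finite.pi' (fun _ : Fin k => Set.finite_Icc (-(N : ℤ)) N)).subset ?_
      intro n hn e
      exact abs_le.1 (hn.1 e)

end Pool.Agent.Results.MP_5f6b43_gt.UniformOrder
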